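import Mathlib

/-! # Lemma (L): two R-pairs of directions illuminate the belt of a half-turn symmetric body
Definitions and statements of the lemmas.
`R (p,z) = (-p,z)`; `p : ℤ → ℝ × ℝ` is the cyclic list of the vertices of a centrally symmetric strictly convex `2m`-gon,
`p (i+m) = -p i`, the heights are `z i`, `z (i+m) = z i`, `|z i| < 1`. -/

set_option autoImplicit false

open Set

namespace Pool.Agent.H332.LL

abbrev P2 := ℝ × ℝ
abbrev P3 := P2 × ℝ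

/-- the determinant -/
def det (u v : P2) : ℝ := u.1 * v.2 - u.2 * v.1

/-- a cyclically ordered centrally symmetric strictly convex polygon with heights -/
structure Conf (m : ℕ) (p : ℤ → P2) (z : ℤ → ℝ) : Prop where
  hm : 2 ≤ m
  hp : ∀ i, p (i + m) = -p i
  hz : ∀ i, z (i + m) = z i
  hz1 : ∀ i, |z i| < 1
  conv : ∀ i j k, i < j → j < k → k < i + 2 * m → 0 < det (p j - p i) (p k - p j)

/-- a half-turn symmetric convex set containing the vertices and the two poles -/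
structure Body (p : ℤ → P2) (z : ℤ → ℝ) (K : Set P3) : Prop where
  conv : Convex ℝ K
  north : ((0 : P2), (1 : ℝ)) ∈ K
  south : ((0 : P2), (-1 : ℝ)) ∈ K
  mem : ∀ i, (p i, z i) ∈ K
  symm : ∀ x : P3, x ∈ K → (-x.1, x.2) ∈ K
  int0 : (0 : P3) ∈ interior K

/-- tangent directions at `x` -/
def T (K : Set P3) (x : P3) : Set P3 := {d | ∃ t : ℝ, 0 < t ∧ x + t • d ∈ K}

/-- illuminating directions at `x` -/
def C (K : Set P3) (x : P3) : Set P3 := {d | ∃ t : ℝ, 0 < t ∧ x + t • d ∈ interior K}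

/-- the vertex `x_i` -/
def vx (p : ℤ → P2) (z : ℤ → ℝ) (i : ℤ) : P3 := (p i, z i)

/-- point on the edge `[p_a, p_{a+1}]` -/
noncomputable def q (p : ℤ → P2) (a : ℤ) (s : ℝ) : P2 := (1 - s) • p a + s • p (a + 1)

/-- height over the edge -/
noncomputable def zq (z : ℤ → ℝ) (a : ℤ) (s : ℝ) : ℝ := (1 - s) * z a + s * z (a + 1)

/-- direction for the run between the cuts -/
noncomputable def v1 (p : ℤ → P2) (a b : ℤ) (s t : ℝ) : P2 := -(q p a s + q p b t)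

/-- direction for the other run -/
noncomputable def v2 (p : ℤ → P2) (a b : ℤ) (s t : ℝ) : P2 := q p a s - q p b t

/-- the run `J` is illuminated by one direction over `v` -/
def Light (p : ℤ → P2) (z : ℤ → ℝ) (K : Set P3) (J : Finset ℤ) (v : P2) : Prop :=
  ∃ k : ℝ, ∀ i ∈ J, (v, k) ∈ C K (vx p z i)

/-- all slopes over `v` at `i` are at most all slopes over `v` at `j` -/
def Below (p : ℤ → P2) (z : ℤ → ℝ) (K : Set P3) (v : P2) (i j : ℤ) : Prop :=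
  ∀ k l : ℝ, (v, k) ∈ T K (vx p z i) → (v, l) ∈ T K (vx p z j) → k ≤ l

/-- the admissible parameters of the node `(a,b)` -/
def Dom (m : ℕ) (a b : ℤ) (s t : ℝ) : Prop :=
  0 ≤ s ∧ s ≤ 1 ∧ 0 ≤ t ∧ t ≤ 1 ∧ ((0 < s ∧ s < 1) ∨ (0 < t ∧ t < 1)) ∧
    (b = a + 1 → s < 1 ∧ 0 < t) ∧ (b + 1 = a + m → 0 < s ∧ t < 1)

/-! ## Statements -/

/-- weak triangle inequalities and positivity -/
def S_tri : Prop := ∀ (m : ℕ) (p : ℤ → P2) (z : ℤ → ℝ), Conf m p z →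
  (∀ i j, i < j → j < i + m → 0 < det (p i) (p j)) ∧
  (∀ i j k, i ≤ j → j ≤ k → k ≤ i + m →
    det (p i) (p k) ≤ det (p i) (p j) + det (p j) (p k) ∧
    det (p i) (p j) ≤ det (p j) (p k) + det (p i) (p k) ∧
    det (p j) (p k) ≤ det (p i) (p j) + det (p i) (p k)) ∧
  (∀ i j k, i < j → j < k → k < i + m →
    det (p i) (p k) < det (p i) (p j) + det (p j) (p k) ∧
    det (p i) (p j) < det (p j) (p k) + det (p i) (p k) ∧
    det (p j) (p k) < det (p i) (p j) + det (p i) (p k))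

/-- membership in the tangent cone and in the illuminating cone from coordinates -/
def S_cone : Prop := ∀ (m : ℕ) (p : ℤ → P2) (z : ℤ → ℝ) (K : Set P3), Conf m p z → Body p z K →
  ∀ (i j : ℤ) (v : P2) (W α γ : ℝ), 0 < W → |γ| ≤ α → W • v = -α • p i + γ • p j →
    (v, (α * (1 - z i) - |γ| * (1 - z j)) / W) ∈ T K (vx p z i) ∧
    (v, -(α * (1 + z i) - |γ| * (1 + z j)) / W) ∈ T K (vx p z i) ∧
    (|γ| < α → ∃ k : ℝ, (v, k) ∈ C K (vx p z i))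

/-- one dimensional Helly -/
def S_helly : Prop := ∀ (p : ℤ → P2) (z : ℤ → ℝ) (K : Set P3), Body p z K →
  ∀ (J : Finset ℤ) (v : P2), (∀ i ∈ J, ∃ k : ℝ, (v, k) ∈ C K (vx p z i)) →
    ¬ Light p z K J v → ∃ i ∈ J, ∃ j ∈ J, i ≠ j ∧ Below p z K v i j

/-- `Light` is an open condition -/
def S_open : Prop := ∀ (p : ℤ → P2) (z : ℤ → ℝ) (K : Set P3) (J : Finset ℤ),
  IsOpen {v : P2 | Light p z K J v}

/-- lower bound for the sum of slopes -/
noncomputable def LB (p : ℤ → P2) (h : ℤ → ℝ) (a b : ℤ) (s t : ℝ) (i j : ℤ) : ℝ :=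
  2 * (min (det (q p a s) (p j)) (det (q p b t) (p j)) * h i +
    min (det (p i) (q p b t)) (det (q p a s) (p i)) * h j) / det (p i) (p j)

/-- key inequality: for `i` in the first run and `j` in the second run -/
def S_key : Prop := ∀ (m : ℕ) (p : ℤ → P2) (z : ℤ → ℝ) (K : Set P3), Conf m p z → Body p z K →
  ∀ (a b : ℤ) (s t : ℝ), a < b → b < a + m → 0 ≤ s → s ≤ 1 → 0 ≤ t → t ≤ 1 →
  ∀ i j : ℤ, a < i → i ≤ b → b < j → j ≤ a + m →
    (∃ k l : ℝ, (v1 p a b s t, k) ∈ T K (vx p z i) ∧ (v2 p a b s t, l) ∈ T K (vx p z j) ∧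
      LB p (fun n => 1 - z n) a b s t i j ≤ k + l) ∧
    (∃ k l : ℝ, (v1 p a b s t, k) ∈ T K (vx p z i) ∧ (v2 p a b s t, l) ∈ T K (vx p z j) ∧
      k + l ≤ -LB p (fun n => 1 + z n) a b s t i j)

/-- positivity of the lower bound -/
def S_LB : Prop := ∀ (m : ℕ) (p : ℤ → P2) (z : ℤ → ℝ), Conf m p z →
  ∀ (h : ℤ → ℝ), (∀ n, 0 < h n) →
  ∀ (a b : ℤ) (s t : ℝ), a < b → b < a + m → 0 ≤ s → s ≤ 1 → 0 ≤ t → t ≤ 1 →
  ∀ i j : ℤ, a < i → i ≤ b → b < j → j ≤ a + m →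
    0 ≤ LB p h a b s t i j ∧
    (((0 < s ∧ s < 1) ∨ (0 < t ∧ t < 1)) → 0 < LB p h a b s t i j)

/-- uniform positivity of the lower bound at a crossing -/
def S_LBc : Prop := ∀ (m : ℕ) (p : ℤ → P2) (z : ℤ → ℝ), Conf m p z →
  ∃ c : ℝ, 0 < c ∧ ∀ (a b : ℤ) (t : ℝ), a < b → b < a + m → 0 ≤ t → t ≤ 1 →
  ∀ i j : ℤ, a < i → i ≤ b → b < j → j < a + m →
    c ≤ LB p (fun n => 1 - z n) a b 0 t i j ∧ c ≤ LB p (fun n => 1 + z n) a b 0 t i j

/-- the directions point strictly inwards -/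
def S_inw : Prop := ∀ (m : ℕ) (p : ℤ → P2) (z : ℤ → ℝ) (K : Set P3), Conf m p z → Body p z K →
  ∀ (a b : ℤ) (s t : ℝ), a < b → b < a + m → Dom m a b s t →
    (∀ i ∈ Finset.Icc (a + 1) b, ∃ k : ℝ, (v1 p a b s t, k) ∈ C K (vx p z i)) ∧
    (∀ j ∈ Finset.Icc (b + 1) (a + m), ∃ k : ℝ, (v2 p a b s t, k) ∈ C K (vx p z j))

/-- mountain climbing, parity version -/
def S_climb : Prop := ∀ (r s : ℕ), 0 < r → 0 < s → ∀ (hL hR : ℕ → ℝ) (σ : ℕ → ℕ → Prop),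
  hL 0 = hR 0 → hL r = hR s →
  (∀ i, 0 < i → i ≤ r → hL i < hL 0) → (∀ j, 0 < j → j ≤ s → hR j < hR 0) →
  (∀ i, i < r → hL r < hL i) → (∀ j, j < s → hR s < hR j) →
  (∀ i j, 0 < i → i < r → 0 < j → j < s → hL i ≠ hR j) →
  (∀ i j, i + 1 < r → j < s →
    ((hR j < hL (i + 1) ∧ hL (i + 1) < hR (j + 1)) ∨ (hR (j + 1) < hL (i + 1) ∧ hL (i + 1) < hR j)) →
    (σ i j ↔ σ (i + 1) j)) →
  (∀ i j, i < r → j + 1 < s →
    ((hL i < hR (j + 1) ∧ hR (j + 1) < hL (i + 1)) ∨ (hL (i + 1) < hR (j + 1) ∧ hR (j + 1) < hL i)) →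
    (σ i j ↔ σ i (j + 1))) →
  (σ 0 0 ↔ σ (r - 1) (s - 1))

/-- distinct perturbed heights -/
def S_pert : Prop := ∀ (m : ℕ) (z : ℤ → ℝ) (δ : ℝ), 0 < m → (∀ i, z (i + m) = z i) → 0 < δ →
  ∃ ζ : ℤ → ℝ, (∀ i, ζ (i + m) = ζ i) ∧ (∀ i, |ζ i - z i| ≤ δ) ∧
    ∀ i j : ℤ, i < j → j < i + m → ζ i ≠ ζ j

/-- every node has a status -/
def S_node : Prop := ∀ (m : ℕ) (p : ℤ → P2) (z : ℤ → ℝ) (K : Set P3), Conf m p z → Body p z K →
  ∀ (a b : ℤ), a < b → b < a + m →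
    (∀ s t, Dom m a b s t → ¬ (Light p z K (Finset.Icc (a + 1) b) (v1 p a b s t) ∧
      Light p z K (Finset.Icc (b + 1) (a + m)) (v2 p a b s t))) →
    (∀ s t, Dom m a b s t → (Light p z K (Finset.Icc (a + 1) b) (v1 p a b s t) ∧
      ¬ Light p z K (Finset.Icc (b + 1) (a + m)) (v2 p a b s t))) ∨
    (∀ s t, Dom m a b s t → (¬ Light p z K (Finset.Icc (a + 1) b) (v1 p a b s t) ∧
      Light p z K (Finset.Icc (b + 1) (a + m)) (v2 p a b s t)))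

/-- crossing a vertex `p_a` with the first cut, the second cut at almost the same height -/
def S_cross : Prop := ∀ (m : ℕ) (p : ℤ → P2) (z : ℤ → ℝ) (K : Set P3), Conf m p z → Body p z K →
  ∃ δ : ℝ, 0 < δ ∧ ∀ (a b : ℤ) (t : ℝ), a < b → b + 1 < a + m → 0 < t → t < 1 →
    |zq z b t - z a| ≤ δ →
    Light p z K (Finset.Icc (a + 1) b) (v1 p a b 0 t) →
    Light p z K (Finset.Icc (b + 1) (a - 1 + m)) (v2 p a b 0 t) →
    Light p z K (Finset.Icc a b) (v1 p a b 0 t) ∨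
    Light p z K (Finset.Icc (b + 1) (a + m)) (v2 p a b 0 t)

/-- **Lemma (L)** -/
def LemmaL : Prop := ∀ (m : ℕ) (p : ℤ → P2) (z : ℤ → ℝ) (K : Set P3), Conf m p z → Body p z K →
  ∃ (a b : ℤ) (d₁ d₂ : P3), a < b ∧ b < a + m ∧
    (∀ i, a < i → i ≤ b → d₁ ∈ C K (vx p z i)) ∧
    (∀ j, b < j → j ≤ a + m → d₂ ∈ C K (vx p z j))

end Pool.Agent.H332.LL
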