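import Pool.Agent.H332.LL.Defs

set_option autoImplicit false

open Set

namespace Pool.Agent.H332.LL

theorem q_one (p : ℤ → P2) (a : ℤ) : q p (a - 1) 1 = p a := by
  simp [q]

theorem q_zero (p : ℤ → P2) (a : ℤ) : q p a 0 = p a := by
  simp [q]

theorem q_one' (p : ℤ → P2) (a : ℤ) : q p a 1 = p (a + 1) := by
  simp [q]

theorem q_add {m : ℕ} {p : ℤ → P2} (hp : ∀ i, p (i + m) = -p i) (a : ℤ) (s : ℝ) :
    q p (a + m) s = -q p a s := by
  have h1 : a + m + 1 = (a + 1) + m := by ring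
  simp only [q, h1, hp, smul_neg]
  abel

theorem zq_add {m : ℕ} {z : ℤ → ℝ} (hz : ∀ i, z (i + m) = z i) (a : ℤ) (s : ℝ) :
    zq z (a + m) s = zq z a s := by
  have h1 : a + m + 1 = (a + 1) + m := by ring
  simp only [zq, h1, hz]

theorem Light.mono {p : ℤ → P2} {z : ℤ → ℝ} {K : Set P3} {J J' : Finset ℤ} {v : P2}
    (h : Light p z K J' v) (hJ : J ⊆ J') : Light p z K J v := by
  obtain ⟨k, hk⟩ := h
  exact ⟨k, fun i hi => hk i (hJ hi)⟩

/-- the half turn as a homeomorphism preserves the interior -/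
theorem int_symm {p : ℤ → P2} {z : ℤ → ℝ} {K : Set P3} (hB : Body p z K) {x : P3}
    (hx : x ∈ interior K) : (-x.1, x.2) ∈ interior K := by
  let e : P3 ≃ₜ P3 := (Homeomorph.neg P2).prodCongr (Homeomorph.refl ℝ)
  have he : ∀ y : P3, e y = (-y.1, y.2) := fun y => rfl
  have himg : e ⁻¹' K = K := by
    ext y
    simp only [mem_preimage, he]
    constructor
    · intro hy
      have := hB.symm _ hy
      simpa using this
    · intro hy
      exact hB.symm _ hy
  have h2 : e ⁻¹' interior K = interior K := by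
    rw [e.preimage_interior, himg]
  have h3 : x ∈ e ⁻¹' interior K := by rw [h2]; exact hx
  simpa [he] using h3

theorem C_symm {m : ℕ} {p : ℤ → P2} {z : ℤ → ℝ} {K : Set P3} (hc : Conf m p z) (hB : Body p z K)
    {i : ℤ} {v : P2} {k : ℝ} (h : (v, k) ∈ C K (vx p z i)) : (-v, k) ∈ C K (vx p z (i + m)) := by
  obtain ⟨t, ht, hx⟩ := h
  refine ⟨t, ht, ?_⟩
  have := int_symm hB hx
  have heq : vx p z (i + m) + t • ((-v, k) : P3) =
      (-(vx p z i + t • ((v, k) : P3)).1, (vx p z i + t • ((v, k) : P3)).2) := by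
    ext
    · simp [vx, hc.hp]; ring
    · simp [vx, hc.hp]; ring
    · simp [vx, hc.hz]
  rw [heq]
  exact this

theorem C_symm' {m : ℕ} {p : ℤ → P2} {z : ℤ → ℝ} {K : Set P3} (hc : Conf m p z) (hB : Body p z K)
    {i : ℤ} {v : P2} {k : ℝ} (h : (v, k) ∈ C K (vx p z (i + m))) : (-v, k) ∈ C K (vx p z i) := by
  obtain ⟨t, ht, hx⟩ := h
  refine ⟨t, ht, ?_⟩
  have := int_symm hB hx
  have heq : vx p z i + t • ((-v, k) : P3) =
      (-(vx p z (i + m) + t • ((v, k) : P3)).1, (vx p z (i + m) + t • ((v, k) : P3)).2) := by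
    ext
    · simp [vx, hc.hp]; ring
    · simp [vx, hc.hp]; ring
    · simp [vx, hc.hz]
  rw [heq]
  exact this

theorem Light_shift {m : ℕ} {p : ℤ → P2} {z : ℤ → ℝ} {K : Set P3} (hc : Conf m p z)
    (hB : Body p z K) {a b a' b' : ℤ} (ha : a' = a + m) (hb : b' = b + m) {v : P2} :
    Light p z K (Finset.Icc a' b') (-v) ↔ Light p z K (Finset.Icc a b) v := by
  subst ha hb
  constructor
  · rintro ⟨k, hk⟩
    refine ⟨k, fun i hi => ?_⟩
    rw [Finset.mem_Icc] at hi
    have := C_symm' hc hB (hk (i + m) (by rw [Finset.mem_Icc]; omega))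
    simpa using this
  · rintro ⟨k, hk⟩
    refine ⟨k, fun i hi => ?_⟩
    rw [Finset.mem_Icc] at hi
    have := C_symm hc hB (hk (i - m) (by rw [Finset.mem_Icc]; omega))
    simpa using this

theorem dom_center {m : ℕ} {a b : ℤ} : Dom m a b (1 / 2) (1 / 2) := by
  refine ⟨by norm_num, by norm_num, by norm_num, by norm_num, Or.inl ⟨by norm_num, by norm_num⟩,
    fun _ => ⟨by norm_num, by norm_num⟩, fun _ => ⟨by norm_num, by norm_num⟩⟩

theorem exists_t {x y w : ℝ} (h : (x < w ∧ w < y) ∨ (y < w ∧ w < x)) :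
    ∃ t : ℝ, 0 < t ∧ t < 1 ∧ (1 - t) * x + t * y = w := by
  rcases h with ⟨h1, h2⟩ | ⟨h1, h2⟩
  · refine ⟨(w - x) / (y - x), by apply div_pos <;> linarith, ?_, ?_⟩
    · rw [div_lt_one (by linarith)]; linarith
    · have : y - x ≠ 0 := by linarith
      field_simp
      ring
  · refine ⟨(x - w) / (x - y), by apply div_pos <;> linarith, ?_, ?_⟩
    · rw [div_lt_one (by linarith)]; linarith
    · have : x - y ≠ 0 := by linarith
      field_simp
      ring

theorem zq_close {z ζ : ℤ → ℝ} {δ : ℝ} (h : ∀ i, |ζ i - z i| ≤ δ / 2) {a b : ℤ} {t : ℝ}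
    (h0 : 0 < t) (h1 : t < 1) (he : (1 - t) * ζ b + t * ζ (b + 1) = ζ a) :
    |zq z b t - z a| ≤ δ := by
  have e1 := abs_le.1 (h a)
  have e2 := abs_le.1 (h b)
  have e3 := abs_le.1 (h (b + 1))
  rw [abs_le, zq]
  have a1 : (1 - t) * (ζ b - z b) ≤ (1 - t) * (δ / 2) :=
    mul_le_mul_of_nonneg_left e2.2 (by linarith)
  have a2 : (1 - t) * (-(δ / 2)) ≤ (1 - t) * (ζ b - z b) :=
    mul_le_mul_of_nonneg_left e2.1 (by linarith)
  have a3 : t * (ζ (b + 1) - z (b + 1)) ≤ t * (δ / 2) :=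
    mul_le_mul_of_nonneg_left e3.2 h0.le
  have a4 : t * (-(δ / 2)) ≤ t * (ζ (b + 1) - z (b + 1)) :=
    mul_le_mul_of_nonneg_left e3.1 h0.le
  constructor <;> nlinarith

theorem main (hinw : S_inw) (hnode : S_node) (hcross : S_cross) (hclimb : S_climb)
    (hpert : S_pert) : LemmaL := by
  intro m p z K hc hB
  by_contra hno
  have hm : 2 ≤ m := hc.hm
  -- no point of any node is good
  have hbad : ∀ a b : ℤ, a < b → b < a + m → ∀ s t,
      ¬ (Light p z K (Finset.Icc (a + 1) b) (v1 p a b s t) ∧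
      Light p z K (Finset.Icc (b + 1) (a + m)) (v2 p a b s t)) := by
    rintro a b hab hba s t ⟨⟨k, hk⟩, ⟨l, hl⟩⟩
    apply hno
    refine ⟨a, b, (v1 p a b s t, k), (v2 p a b s t, l), hab, hba, ?_, ?_⟩
    · intro i h1 h2
      exact hk i (Finset.mem_Icc.2 ⟨by omega, h2⟩)
    · intro j h1 h2
      exact hl j (Finset.mem_Icc.2 ⟨by omega, h2⟩)
  obtain ⟨δ, hδ, hcr⟩ := hcross m p z K hc hB
  obtain ⟨ζ, hζp, hζz, hζd⟩ := hpert m z (δ / 2) (by omega) hc.hz (by linarith)
  have hζp' : ∀ i, ζ (i - m) = ζ i := fun i => by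
    have := hζp (i - m)
    simpa using this.symm
  -- status
  let P : ℤ → ℤ → Prop := fun a b => ∀ s t, Dom m a b s t →
    (Light p z K (Finset.Icc (a + 1) b) (v1 p a b s t) ∧
      ¬ Light p z K (Finset.Icc (b + 1) (a + m)) (v2 p a b s t))
  have hnP : ∀ a b : ℤ, a < b → b < a + m → ¬ P a b → ∀ s t, Dom m a b s t →
      (¬ Light p z K (Finset.Icc (a + 1) b) (v1 p a b s t) ∧
      Light p z K (Finset.Icc (b + 1) (a + m)) (v2 p a b s t)) := by
    intro a b hab hba hP
    rcases hnode m p z K hc hB a b hab hba (fun s t _ => hbad a b hab hba s t) with h | h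
    · exact absurd h hP
    · exact h
  -- crossing with the first cut
  have cross1 : ∀ a b : ℤ, a < b → b + 1 < a + m →
      ((ζ b < ζ a ∧ ζ a < ζ (b + 1)) ∨ (ζ (b + 1) < ζ a ∧ ζ a < ζ b)) → (P a b ↔ P (a - 1) b) := by
    intro a b hab hba hbt
    obtain ⟨t, ht0, ht1, hte⟩ := exists_t hbt
    have hclose := zq_close hζz ht0 ht1 hte
    have hD0 : Dom m a b 0 t := ⟨le_rfl, zero_le_one, ht0.le, ht1.le, Or.inr ⟨ht0, ht1⟩,
      fun _ => ⟨zero_lt_one, ht0⟩, fun h => absurd h (by omega)⟩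
    have hD1 : Dom m (a - 1) b 1 t := ⟨zero_le_one, le_rfl, ht0.le, ht1.le, Or.inr ⟨ht0, ht1⟩,
      fun h => absurd h (by omega), fun _ => ⟨zero_lt_one, ht1⟩⟩
    have hv1 : v1 p (a - 1) b 1 t = v1 p a b 0 t := by simp [v1, q_one, q_zero]
    have hv2 : v2 p (a - 1) b 1 t = v2 p a b 0 t := by simp [v2, q_one, q_zero]
    constructor
    · intro hP
      by_contra hP'
      have h1 := hP 0 t hD0
      have h2 := hnP (a - 1) b (by omega) (by omega) hP' 1 t hD1
      rw [hv1, hv2] at h2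
      have e1 : a - 1 + 1 = a := by ring
      rw [e1] at h2
      rcases hcr a b t hab hba ht0 ht1 hclose h1.1 h2.2 with h | h
      · exact h2.1 h
      · exact h1.2 h
    · intro hP
      by_contra hP'
      have h1 := hP 1 t hD1
      have h2 := hnP a b (by omega) (by omega) hP' 0 t hD0
      rw [hv1, hv2] at h1
      have e1 : a - 1 + 1 = a := by ring
      rw [e1] at h1
      refine h2.1 (h1.1.mono ?_)
      intro i hi
      rw [Finset.mem_Icc] at hi ⊢
      omega
  -- crossing with the second cut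
  have cross2 : ∀ a b : ℤ, a + 1 < b → b < a + m →
      ((ζ a < ζ b ∧ ζ b < ζ (a + 1)) ∨ (ζ (a + 1) < ζ b ∧ ζ b < ζ a)) →
      (P a (b - 1) ↔ P a b) := by
    intro a b hab hba hbt
    obtain ⟨s, hs0, hs1, hse⟩ := exists_t hbt
    have hclose := zq_close hζz hs0 hs1 hse
    have hclose' : |zq z (a + m) s - z b| ≤ δ := by rw [zq_add hc.hz]; exact hclose
    have hD0 : Dom m a b s 0 := ⟨hs0.le, hs1.le, le_rfl, zero_le_one, Or.inl ⟨hs0, hs1⟩,
      fun h => absurd h (by omega), fun _ => ⟨hs0, zero_lt_one⟩⟩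
    have hD1 : Dom m a (b - 1) s 1 := ⟨hs0.le, hs1.le, zero_le_one, le_rfl, Or.inl ⟨hs0, hs1⟩,
      fun _ => ⟨hs1, zero_lt_one⟩, fun h => absurd h (by omega)⟩
    have hv1 : v1 p a (b - 1) s 1 = v1 p a b s 0 := by simp [v1, q_one, q_zero]
    have hv2 : v2 p a (b - 1) s 1 = v2 p a b s 0 := by simp [v2, q_one, q_zero]
    have hw1 : v1 p b (a + m) 0 s = v2 p a b s 0 := by
      simp only [v1, v2, q_zero, q_add hc.hp]; abel
    have hw2 : v2 p b (a + m) 0 s = -v1 p a b s 0 := by
      simp only [v1, v2, q_zero, q_add hc.hp]; abel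
    constructor
    · intro hP
      by_contra hP'
      have h1 := hP s 1 hD1
      have h2 := hnP a b (by omega) (by omega) hP' s 0 hD0
      rw [hv1, hv2] at h1
      have e1 : b - 1 + 1 = b := by ring
      rw [e1] at h1
      have h3 := hcr b (a + m) s hba (by omega) hs0 hs1 hclose'
        (by rw [hw1]; exact h2.2)
        (by rw [hw2]; exact (Light_shift hc hB (by ring) (by ring)).2 h1.1)
      rw [hw1, hw2] at h3
      rcases h3 with h | h
      · exact h1.2 h
      · exact h2.1 ((Light_shift hc hB (by ring) (by ring)).1 h)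
    · intro hP
      by_contra hP'
      have h1 := hP s 0 hD0
      have h2 := hnP a (b - 1) (by omega) (by omega) hP' s 1 hD1
      rw [hv1, hv2] at h2
      refine h2.1 (h1.1.mono ?_)
      intro i hi
      rw [Finset.mem_Icc] at hi ⊢
      omega
  -- the highest vertex
  obtain ⟨M, hMm, hM⟩ := Finset.exists_max_image (Finset.Ico (0 : ℤ) m) ζ
    ⟨0, Finset.mem_Ico.2 ⟨le_rfl, by omega⟩⟩
  have hζmod : ∀ (i : ℤ) (n : ℤ), ζ (i + n * m) = ζ i := by
    intro i n
    induction n using Int.induction_on with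
    | zero => simp
    | succ n ih =>
        have : i + ((n : ℤ) + 1) * m = (i + n * m) + m := by ring
        rw [this, hζp, ih]
    | pred n ih =>
        have : i + (-(n : ℤ) - 1) * m = (i + -(n : ℤ) * m) - m := by ring
        rw [this, hζp', ih]
  have hMmax : ∀ i, ζ i ≤ ζ M := by
    intro i
    have h1 : ζ i = ζ (i % m) := by
      have := hζmod (i % m) (i / m)
      rw [← this]
      congr 1
      have := Int.emod_add_mul_ediv i m
      linarith
    rw [h1]
    exact hM _ (Finset.mem_Ico.2 ⟨Int.emod_nonneg _ (by omega), Int.emod_lt_of_pos _ (by omega)⟩)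
  have hMlt : ∀ i, M < i → i < M + m → ζ i < ζ M := fun i h1 h2 =>
    lt_of_le_of_ne (hMmax i) (fun h => hζd M i h1 h2 h.symm)
  have hMlt' : ∀ i, M - m < i → i < M → ζ i < ζ M := fun i h1 h2 =>
    lt_of_le_of_ne (hMmax i) (fun h => hζd i M h2 (by omega) h)
  -- the lowest vertex
  obtain ⟨N, hNm, hN⟩ := Finset.exists_min_image (Finset.Icc (M + 1) (M + m - 1)) ζ
    ⟨M + 1, Finset.mem_Icc.2 ⟨le_rfl, by omega⟩⟩
  rw [Finset.mem_Icc] at hNm
  have hNM : ζ N < ζ M := hMlt N (by omega) (by omega)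
  have hNlt : ∀ i, M ≤ i → i < N → ζ N < ζ i := by
    intro i h1 h2
    rcases h1.eq_or_lt with h | h
    · rw [← h]; exact hNM
    · exact lt_of_le_of_ne (hN i (Finset.mem_Icc.2 ⟨by omega, by omega⟩))
        (fun h => hζd i N h2 (by omega) h.symm)
  have hNlt' : ∀ i, N < i → i ≤ M + m → ζ N < ζ i := by
    intro i h1 h2
    rcases h2.eq_or_lt with h | h
    · rw [h, hζp]; exact hNM
    · exact lt_of_le_of_ne (hN i (Finset.mem_Icc.2 ⟨by omega, by omega⟩))
        (fun h => hζd N i h1 (by omega) h)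
  obtain ⟨r, hr⟩ : ∃ r : ℕ, (r : ℤ) = M + m - N := ⟨(M + m - N).toNat, by omega⟩
  obtain ⟨s, hs⟩ : ∃ s : ℕ, (s : ℤ) = N - M := ⟨(N - M).toNat, by omega⟩
  have hcl := hclimb r s (by omega) (by omega) (fun i => ζ (M - i)) (fun j => ζ (M + j))
    (fun i j => P (M - 1 - i) (M + j)) (by simp)
    (by
      have h1 : M - (r : ℤ) = N - m := by omega
      have h2 : M + (s : ℤ) = N := by omega
      show ζ (M - r) = ζ (M + s)
      rw [h1, h2, hζp'])
    (fun i h1 h2 => by
      show ζ (M - i) < ζ (M - ((0 : ℕ) : ℤ))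
      simp only [Nat.cast_zero, sub_zero]
      exact hMlt' _ (by omega) (by omega))
    (fun j h1 h2 => by
      show ζ (M + j) < ζ (M + ((0 : ℕ) : ℤ))
      simp only [Nat.cast_zero, add_zero]
      exact hMlt _ (by omega) (by omega))
    (fun i h1 => by
      show ζ (M - r) < ζ (M - i)
      have e1 : M - (r : ℤ) = N - m := by omega
      rw [e1, hζp', ← hζp (M - i)]
      exact hNlt' _ (by omega) (by omega))
    (fun j h1 => by
      show ζ (M + s) < ζ (M + j)
      have e1 : M + (s : ℤ) = N := by omega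
      rw [e1]
      exact hNlt _ (by omega) (by omega))
    (fun i j h1 h2 h3 h4 => hζd _ _ (by omega) (by omega))
    (fun i j h1 h2 h3 => by
      have e1 : M - (((i + 1 : ℕ)) : ℤ) = M - 1 - i := by push_cast; ring
      have e2 : M + (((j + 1 : ℕ)) : ℤ) = (M + j) + 1 := by push_cast; ring
      have e3 : M - 1 - (((i + 1 : ℕ)) : ℤ) = M - 1 - i - 1 := by push_cast; ring
      simp only [e1, e2] at h3
      simp only [e3]
      exact cross1 (M - 1 - i) (M + j) (by omega) (by omega) h3)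
    (fun i j h1 h2 h3 => by
      have e1 : M - (((i + 1 : ℕ)) : ℤ) = M - 1 - i := by push_cast; ring
      have e2 : M + (((j + 1 : ℕ)) : ℤ) = (M + j) + 1 := by push_cast; ring
      have e4 : M - (i : ℤ) = M - 1 - i + 1 := by ring
      simp only [e1, e2, e4] at h3
      simp only [e2]
      have h5 := cross2 (M - 1 - i) (M + j + 1) (by omega) (by omega) (by
        rcases h3 with h | h
        · right; exact h
        · left; exact h)
      have e6 : M + (j : ℤ) + 1 - 1 = M + j := by ring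
      rw [e6] at h5
      exact h5)
  -- start and end
  have hstart : P (M - 1) M := by
    by_contra hP
    have h1 := hnP (M - 1) M (by omega) (by omega) hP _ _ dom_center
    have h2 := (hinw m p z K hc hB (M - 1) M (1 / 2) (1 / 2) (by omega) (by omega) dom_center).1 M
      (Finset.mem_Icc.2 ⟨by omega, le_rfl⟩)
    obtain ⟨k, hk⟩ := h2
    apply h1.1
    refine ⟨k, fun i hi => ?_⟩
    rw [Finset.mem_Icc] at hi
    have : i = M := by omega
    rw [this]; exact hk
  have hend : ¬ P (N - m) (N - 1) := by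
    intro hP
    have h1 := hP _ _ dom_center
    have h2 := (hinw m p z K hc hB (N - m) (N - 1) (1 / 2) (1 / 2) (by omega) (by omega)
      dom_center).2 N (Finset.mem_Icc.2 ⟨by omega, by omega⟩)
    obtain ⟨k, hk⟩ := h2
    apply h1.2
    refine ⟨k, fun i hi => ?_⟩
    rw [Finset.mem_Icc] at hi
    have : i = N := by omega
    rw [this]; exact hk
  have e1 : M - 1 - (((0 : ℕ)) : ℤ) = M - 1 := by simp
  have e2 : M + (((0 : ℕ)) : ℤ) = M := by simp
  have e3 : M - 1 - (((r - 1 : ℕ)) : ℤ) = N - m := by omega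
  have e4 : M + (((s - 1 : ℕ)) : ℤ) = N - 1 := by omega
  simp only [e1, e2, e3, e4] at hcl
  exact hend (hcl.1 hstart)

end Pool.Agent.H332.LL
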